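import Mathlib

set_option autoImplicit false

namespace Pool.Agent.Results.MP_368cee_co.No

open Finset

/-- every colour occurs zero or an odd number of times on every hyperedge -/
def StrongOdd {V : Type} [DecidableEq V] (E : Finset (Finset V)) {t : ℕ} (φ : V → Fin t) : Prop :=
  ∀ e ∈ E, ∀ i : Fin t, (e.filter (fun v => φ v = i)).card = 0 ∨
    Odd (e.filter (fun v => φ v = i)).card

def outE (N : ℕ) (i : Fin N) : Finset (Fin N × Fin N) := univ.filter (fun v => v.1 = i ∧ v.2 ≠ i)
def inE (N : ℕ) (i : Fin N) : Finset (Fin N × Fin N) := univ.filter (fun v => v.2 = i ∧ v.1 ≠ i)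
def allE (N : ℕ) (i : Fin N) : Finset (Fin N × Fin N) := outE N i ∪ inE N i
def edges (N : ℕ) : Finset (Finset (Fin N × Fin N)) :=
  univ.image (outE N) ∪ univ.image (inE N) ∪ univ.image (allE N)

lemma deg_le (N : ℕ) (v : Fin N × Fin N) : ((edges N).filter (fun e => v ∈ e)).card ≤ 4 := by
  have hsub : (edges N).filter (fun e => v ∈ e) ⊆
      {outE N v.1, inE N v.2, allE N v.1, allE N v.2} := by
    intro e he
    simp only [edges, mem_filter, mem_union, mem_image, mem_univ, true_and] at he
    obtain ⟨(⟨i, rfl⟩ | ⟨i, rfl⟩) | ⟨i, rfl⟩, hv⟩ := he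
    · simp only [outE, mem_filter, mem_univ, true_and] at hv
      simp [hv.1]
    · simp only [inE, mem_filter, mem_univ, true_and] at hv
      simp [hv.1]
    · simp only [allE, outE, inE, mem_union, mem_filter, mem_univ, true_and] at hv
      rcases hv with hv | hv
      · simp [hv.1]
      · simp [hv.1]
  exact (card_le_card hsub).trans (card_le_four)

lemma not_strongOdd (c t : ℕ) (ht : t ≤ c) (φ : Fin (2 ^ c + 1) × Fin (2 ^ c + 1) → Fin t) :
    ¬ StrongOdd (edges (2 ^ c + 1)) φ := by
  intro h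
  let f : Fin (2 ^ c + 1) → Finset (Fin t) := fun i => (outE _ i).image φ
  have hcard : Fintype.card (Finset (Fin t)) < Fintype.card (Fin (2 ^ c + 1)) := by
    simp only [Fintype.card_finset, Fintype.card_fin]
    have := Nat.pow_le_pow_right (show 0 < 2 by norm_num) ht
    omega
  obtain ⟨i, j, hij, hf⟩ := Fintype.exists_ne_map_eq_of_card_lt f hcard
  have h1 : φ (i, j) ∈ f i := mem_image_of_mem φ (by simp [outE, hij.symm])
  rw [hf] at h1
  obtain ⟨w, hw, hwc⟩ := mem_image.1 h1
  have ho := h (outE _ j) (by simp [edges]) (φ (i, j))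
  have hi := h (inE _ j) (by simp [edges]) (φ (i, j))
  have ha := h (allE _ j) (by simp [edges]) (φ (i, j))
  have hdis : Disjoint ((outE _ j).filter (fun v => φ v = φ (i, j)))
      ((inE _ j).filter (fun v => φ v = φ (i, j))) := by
    rw [disjoint_left]
    intro v hv hv'
    simp only [outE, inE, mem_filter, mem_univ, true_and] at hv hv'
    exact hv.1.2 hv'.1.1
  rw [allE, filter_union, card_union_of_disjoint hdis] at ha
  have po : 0 < ((outE _ j).filter (fun v => φ v = φ (i, j))).card :=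
    card_pos.2 ⟨w, mem_filter.2 ⟨hw, hwc⟩⟩
  have pi : 0 < ((inE _ j).filter (fun v => φ v = φ (i, j))).card :=
    card_pos.2 ⟨(i, j), mem_filter.2 ⟨by simp [inE, hij], rfl⟩⟩
  simp only [Nat.odd_iff] at ho hi ha
  omega

theorem result : ∀ c : ℕ, ∃ (V : Type) (_ : Fintype V) (_ : DecidableEq V)
    (E : Finset (Finset V)), (∀ v : V, (E.filter (fun e => v ∈ e)).card ≤ 4) ∧
      ∀ t ≤ c, ∀ φ : V → Fin t, ¬ StrongOdd E φ := fun c =>
  ⟨Fin (2 ^ c + 1) × Fin (2 ^ c + 1), inferInstance, inferInstance, edges _, deg_le _,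
    fun t ht φ => not_strongOdd c t ht φ⟩

end Pool.Agent.Results.MP_368cee_co.No
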